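import Pool.Agent.Helper29.SR.Props
import Pool.Agent.Helper96.RC.LowB
import Pool.Agent.Helper10.RC.Homs

/-!
# MP_b55b7c_an: packet SR-UBd
-/

open scoped ENNReal NNReal InnerProductSpace ComplexOrder
open Filter Topology

attribute [-instance] CStarMatrix.instAlgebra CStarMatrix.instModule CStarMatrix.instSMul
  CStarMatrix.instMulAction CStarMatrix.instDistribMulAction

set_option linter.unusedSectionVars false

noncomputable section
namespace RC
namespace UBd33
universe u

section
variable {B : Type u} [CStarAlgebra B] [PartialOrder B] [StarOrderedRing B]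

theorem ts_smul (φ : TState B) (c : ℝ) (x : B) : (φ.φ (c • x)).re = c * (φ.φ x).re := by
  rw [← Complex.coe_smul c x, map_smul, smul_eq_mul, Complex.re_ofReal_mul]

/-- The off-diagonal defects. -/
def D {L : ℕ} (e : B) (x : Fin L → B) (i l : Fin L) : B :=
  e * star (x i) * x l * e - if i = l then e * e else 0

/-- The defect of the sum. -/
def D1 {L : ℕ} (e : B) (x : Fin L → B) : B := 1 - ∑ i, x i * (e * e) * star (x i)

theorem HD_eq {L : ℕ} (e : B) (x : Fin L → B) :
    HD e x = star (D1 e x) * D1 e x + ∑ i, ∑ l, star (D e x i l) * D e x i l := rfl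

theorem D1_sa {L : ℕ} (e : B) (he : IsSelfAdjoint e) (x : Fin L → B) :
    IsSelfAdjoint (D1 e x) := by
  unfold D1
  refine (IsSelfAdjoint.one B).sub ?_
  have h1 : ∀ i, IsSelfAdjoint (x i * (e * e) * star (x i)) := by
    intro i
    have h2 : IsSelfAdjoint (e * e) := by
      have := he.pow 2
      rwa [pow_two] at this
    exact h2.conjugate (x i)
  unfold IsSelfAdjoint
  rw [star_sum]
  exact Finset.sum_congr rfl fun i _ => h1 i

theorem term {L : ℕ} (e : B) (x : Fin L → B) (i j : Fin L) :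
    (e * star (x i) * x j * e) * (e * star (x j) * x i * e) =
      D e x i j * D e x j i +
        if j = i then D e x i i * (e * e) + e * e * D e x i i + e * e * (e * e) else 0 := by
  by_cases h : j = i
  · subst h
    simp only [D, if_true]
    noncomm_ring
  · have h' : ¬ i = j := fun hh => h hh.symm
    simp only [D, if_neg h, if_neg h', sub_zero, add_zero]

theorem key {L : ℕ} (e : B) (x : Fin L → B) (i : Fin L) :
    e * e - e * e * (e * e) = - D e x i i + ∑ j, D e x i j * D e x j i + D e x i i * (e * e) +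
      e * e * D e x i i + e * star (x i) * D1 e x * x i * e := by
  have h1 : (1 : B) = (∑ j, x j * (e * e) * star (x j)) + D1 e x := by
    unfold D1
    abel
  have h2 : e * star (x i) * x i * e =
      ∑ j, (e * star (x i) * x j * e) * (e * star (x j) * x i * e) +
        e * star (x i) * D1 e x * x i * e := by
    calc e * star (x i) * x i * e = e * star (x i) * 1 * x i * e := by rw [mul_one]
      _ = e * star (x i) * ((∑ j, x j * (e * e) * star (x j)) + D1 e x) * x i * e := by rw [← h1]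
      _ = _ := by
        rw [mul_add, add_mul, add_mul, Finset.mul_sum, Finset.sum_mul, Finset.sum_mul]
        congr 1
        refine Finset.sum_congr rfl fun j _ => ?_
        simp only [mul_assoc]
  have h3 : ∑ j, (e * star (x i) * x j * e) * (e * star (x j) * x i * e) =
      ∑ j, D e x i j * D e x j i +
        (D e x i i * (e * e) + e * e * D e x i i + e * e * (e * e)) := by
    rw [Finset.sum_congr rfl fun j _ => term e x i j, Finset.sum_add_distrib]
    congr 1
    rw [Finset.sum_ite_eq' Finset.univ i]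
    simp
  have h4 : e * star (x i) * x i * e = D e x i i + e * e := by
    simp only [D, if_true]
    abel
  rw [h4, h3] at h2
  have h5 : e * e = ∑ j, D e x i j * D e x j i +
      (D e x i i * (e * e) + e * e * D e x i i + e * e * (e * e)) +
        e * star (x i) * D1 e x * x i * e - D e x i i := by
    rw [← h2]
    abel
  calc e * e - e * e * (e * e) = (∑ j, D e x i j * D e x j i +
      (D e x i i * (e * e) + e * e * D e x i i + e * e * (e * e)) +
        e * star (x i) * D1 e x * x i * e - D e x i i) - e * e * (e * e) := by rw [← h5]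
    _ = _ := by abel

theorem norm_e {e : B} (h0 : 0 ≤ e) (h1 : e ≤ 1) : ‖e‖ ≤ 1 :=
  (CStarAlgebra.norm_le_one_iff_of_nonneg e h0).2 h1

theorem norm_D {L : ℕ} {e : B} (he : ‖e‖ ≤ 1) {x : Fin L → B} (hx : ∀ i, ‖x i‖ ≤ 1)
    (i l : Fin L) : ‖D e x i l‖ ≤ 2 := by
  have h1 : ‖e * star (x i) * x l * e‖ ≤ 1 := by
    calc ‖e * star (x i) * x l * e‖ ≤ ‖e‖ * ‖star (x i)‖ * ‖x l‖ * ‖e‖ := by
          refine (norm_mul_le _ _).trans ?_
          gcongr
          refine (norm_mul_le _ _).trans ?_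
          gcongr
          exact norm_mul_le _ _
      _ ≤ 1 * 1 * 1 * 1 := by
          gcongr
          · rw [norm_star]; exact hx i
          · exact hx l
      _ = 1 := by norm_num
  have h2 : ‖(if i = l then e * e else 0 : B)‖ ≤ 1 := by
    split_ifs
    · calc ‖e * e‖ ≤ ‖e‖ * ‖e‖ := norm_mul_le _ _
        _ ≤ 1 * 1 := by gcongr
        _ = 1 := by norm_num
    · simp
  calc ‖D e x i l‖ ≤ ‖e * star (x i) * x l * e‖ + ‖(if i = l then e * e else 0 : B)‖ :=
        norm_sub_le _ _
    _ ≤ 2 := by linarith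

end

section n2
variable {B : Type u} [CStarAlgebra B] [PartialOrder B] [StarOrderedRing B]

theorem n2_zero (hN : N2P.{u}) (φ : TState B) : n2 φ 0 = 0 := by
  have h := (hN B φ).1 0
  have h1 := h.1
  have h2 := h.2.2.1
  rw [norm_zero] at h2
  exact le_antisymm h2 h1

theorem n2_sum (hN : N2P.{u}) (φ : TState B) {ι : Type} (s : Finset ι) (f : ι → B) :
    n2 φ (∑ i ∈ s, f i) ≤ ∑ i ∈ s, n2 φ (f i) := by
  classical
  induction s using Finset.induction_on with
  | empty => simp [n2_zero hN φ]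
  | insert a s ha ih =>
    rw [Finset.sum_insert ha, Finset.sum_insert ha]
    exact ((hN B φ).2.2.1 _ _).1.trans (by linarith)

/-- All the defects are small in the 2-norm. -/
theorem small (hN : N2P.{u}) (φ : TState B) {L : ℕ} {e : B} {x : Fin L → B} {r : ℝ}
    (hr : 0 ≤ r) (h : (φ.φ (HD e x)).re < r ^ 2) :
    (φ.φ (star (D1 e x) * D1 e x)).re ≤ r ^ 2 ∧ n2 φ (D1 e x) ≤ r ∧
      ∀ i l, n2 φ (D e x i l) ≤ r := by
  have hsq : ∀ y : B, n2 φ y ^ 2 = (φ.φ (star y * y)).re := fun y => ((hN B φ).1 y).2.1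
  have h0 : ∀ y : B, 0 ≤ (φ.φ (star y * y)).re := fun y => by rw [← hsq]; positivity
  rw [HD_eq, map_add, map_sum, Complex.add_re, Complex.re_sum] at h
  have hs : ∀ i, (φ.φ (∑ l, star (D e x i l) * D e x i l)).re =
      ∑ l, (φ.φ (star (D e x i l) * D e x i l)).re := by
    intro i
    rw [map_sum, Complex.re_sum]
  have hin : ∀ i, 0 ≤ (φ.φ (∑ l, star (D e x i l) * D e x i l)).re := by
    intro i
    rw [hs]
    exact Finset.sum_nonneg fun l _ => h0 _
  have hout : 0 ≤ ∑ i, (φ.φ (∑ l, star (D e x i l) * D e x i l)).re :=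
    Finset.sum_nonneg fun i _ => hin i
  have hD1 : (φ.φ (star (D1 e x) * D1 e x)).re ≤ r ^ 2 := by linarith
  have hDil : ∀ i l, (φ.φ (star (D e x i l) * D e x i l)).re ≤ r ^ 2 := by
    intro i l
    have h1 : (φ.φ (star (D e x i l) * D e x i l)).re ≤
        (φ.φ (∑ l, star (D e x i l) * D e x i l)).re := by
      rw [hs]
      exact Finset.single_le_sum (f := fun l => (φ.φ (star (D e x i l) * D e x i l)).re)
        (fun l _ => h0 _) (Finset.mem_univ l)
    have h2 : (φ.φ (∑ l, star (D e x i l) * D e x i l)).re ≤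
        ∑ i, (φ.φ (∑ l, star (D e x i l) * D e x i l)).re :=
      Finset.single_le_sum (f := fun i => (φ.φ (∑ l, star (D e x i l) * D e x i l)).re)
        (fun i _ => hin i) (Finset.mem_univ i)
    have h3 := h0 (D1 e x)
    linarith
  refine ⟨hD1, ?_, ?_⟩
  · refine abs_le_of_sq_le_sq' ?_ hr |>.2
    rw [hsq]
    exact hD1
  · intro i l
    refine abs_le_of_sq_le_sq' ?_ hr |>.2
    rw [hsq]
    exact hDil i l

/-- `e²` is almost a projection. -/
theorem proj (hN : N2P.{u}) (φ : TState B) {L : ℕ} {e : B} {x : Fin L → B} {r : ℝ}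
    (he : ‖e‖ ≤ 1) (hx : ∀ i, ‖x i‖ ≤ 1) (h1 : n2 φ (D1 e x) ≤ r)
    (h2 : ∀ i l, n2 φ (D e x i l) ≤ r) (i : Fin L) :
    (φ.φ (e * e - e * e * (e * e))).re ≤ (2 * L + 4) * r := by
  have hr : 0 ≤ r := ((hN B φ).1 _).1.trans h1
  obtain ⟨hA, hB, hC, -⟩ := hN B φ
  have hre : (φ.φ (e * e - e * e * (e * e))).re ≤ n2 φ (e * e - e * e * (e * e)) :=
    (Complex.re_le_norm _).trans (hA _).2.2.2.1
  refine hre.trans ?_
  rw [key e x i]
  have hP : ‖e * e‖ ≤ 1 := by
    calc ‖e * e‖ ≤ ‖e‖ * ‖e‖ := norm_mul_le _ _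
      _ ≤ 1 * 1 := by gcongr
      _ = 1 := by norm_num
  have t1 : n2 φ (- D e x i i) ≤ r := by
    rw [(hA _).2.2.2.2.2]
    exact h2 i i
  have t2 : n2 φ (∑ j, D e x i j * D e x j i) ≤ L * (2 * r) := by
    refine (n2_sum hN φ _ _).trans ?_
    have : ∀ j ∈ (Finset.univ : Finset (Fin L)), n2 φ (D e x i j * D e x j i) ≤ 2 * r := by
      intro j _
      refine ((hC _ _).2.2.1).trans ?_
      have a1 := norm_D he hx i j
      have a2 := h2 j i
      have a3 := (hA (D e x j i)).1
      calc ‖D e x i j‖ * n2 φ (D e x j i) ≤ 2 * n2 φ (D e x j i) := by gcongr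
        _ ≤ 2 * r := by gcongr
    refine (Finset.sum_le_sum this).trans ?_
    simp
  have t3 : n2 φ (D e x i i * (e * e)) ≤ r := by
    refine ((hC _ _).2.2.2.1).trans ?_
    calc n2 φ (D e x i i) * ‖e * e‖ ≤ r * 1 := by
          have := h2 i i
          gcongr
      _ = r := mul_one r
  have t4 : n2 φ (e * e * D e x i i) ≤ r := by
    refine ((hC _ _).2.2.1).trans ?_
    calc ‖e * e‖ * n2 φ (D e x i i) ≤ 1 * r := by
          have := h2 i i
          have := (hA (D e x i i)).1
          gcongr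
      _ = r := one_mul r
  have t5 : n2 φ (e * star (x i) * D1 e x * x i * e) ≤ r := by
    have hn0 := (hA (D1 e x)).1
    have b0 : ‖e * star (x i)‖ ≤ 1 := by
      calc ‖e * star (x i)‖ ≤ ‖e‖ * ‖star (x i)‖ := norm_mul_le _ _
        _ ≤ 1 * 1 := by
            gcongr
            rw [norm_star]; exact hx i
        _ = 1 := by norm_num
    have b1 : n2 φ (e * star (x i) * D1 e x) ≤ r := by
      refine ((hC _ _).2.2.1).trans ?_
      calc ‖e * star (x i)‖ * n2 φ (D1 e x) ≤ 1 * r := by gcongr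
        _ = r := one_mul r
    have b2 : n2 φ (e * star (x i) * D1 e x * x i) ≤ r := by
      refine ((hC _ _).2.2.2.1).trans ?_
      calc n2 φ (e * star (x i) * D1 e x) * ‖x i‖ ≤ r * 1 := by
            have := hx i
            gcongr
        _ = r := mul_one r
    refine ((hC _ _).2.2.2.1).trans ?_
    calc n2 φ (e * star (x i) * D1 e x * x i) * ‖e‖ ≤ r * 1 := by gcongr
      _ = r := mul_one r
  have s1 := (hC (- D e x i i) (∑ j, D e x i j * D e x j i)).1
  have s2 := (hC (- D e x i i + ∑ j, D e x i j * D e x j i) (D e x i i * (e * e))).1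
  have s3 := (hC (- D e x i i + ∑ j, D e x i j * D e x j i + D e x i i * (e * e))
    (e * e * D e x i i)).1
  have s4 := (hC (- D e x i i + ∑ j, D e x i j * D e x j i + D e x i i * (e * e) +
    e * e * D e x i i) (e * star (x i) * D1 e x * x i * e)).1
  nlinarith

/-- The trace of `e²` is almost `1/L`. -/
theorem tr_e (hN : N2P.{u}) (φ : TState B) {L : ℕ} {e : B} {x : Fin L → B} {r : ℝ}
    (h1 : n2 φ (D1 e x) ≤ r) (h2 : ∀ i l, n2 φ (D e x i l) ≤ r) :
    (L : ℝ) * (φ.φ (e * e)).re ≤ 1 + (L + 1) * r := by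
  obtain ⟨hA, hB, hC, -⟩ := hN B φ
  have e1 : φ.φ (D1 e x) = 1 - ∑ i, (φ.φ (D e x i i) + φ.φ (e * e)) := by
    unfold D1
    rw [map_sub, φ.one, map_sum]
    congr 1
    refine Finset.sum_congr rfl fun i _ => ?_
    rw [← map_add]
    have : D e x i i + e * e = e * star (x i) * x i * e := by
      simp only [D, if_true]
      abel
    rw [this]
    have h : x i * (e * e) * star (x i) = (x i * e) * (e * star (x i)) := by
      simp only [mul_assoc]
    rw [h, φ.trace]
    simp only [mul_assoc]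
  have e2 : (φ.φ (D1 e x)).re = 1 - (∑ i, (φ.φ (D e x i i)).re + L * (φ.φ (e * e)).re) := by
    rw [e1, Complex.sub_re, Complex.one_re, Complex.re_sum]
    congr 1
    simp [Finset.sum_add_distrib]
  have h3 : - (φ.φ (D1 e x)).re ≤ r := by
    have a := Complex.abs_re_le_norm (φ.φ (D1 e x))
    have b := (hA (D1 e x)).2.2.2.1
    have c := neg_abs_le (φ.φ (D1 e x)).re
    linarith
  have h4 : - ∑ i, (φ.φ (D e x i i)).re ≤ L * r := by
    rw [← Finset.sum_neg_distrib]
    have : ∀ i ∈ (Finset.univ : Finset (Fin L)), - (φ.φ (D e x i i)).re ≤ r := by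
      intro i _
      have a := Complex.abs_re_le_norm (φ.φ (D e x i i))
      have b := (hA (D e x i i)).2.2.2.1
      have c := neg_abs_le (φ.φ (D e x i i)).re
      have d := h2 i i
      linarith
    refine (Finset.sum_le_sum this).trans ?_
    simp
  nlinarith

end n2

section ramp
variable {B : Type u} [CStarAlgebra B] [PartialOrder B] [StarOrderedRing B]

theorem ramp_cont {s : ℝ} : Continuous (ramp 0 s) := by
  unfold ramp
  fun_prop

theorem ramp_nonneg (s t : ℝ) : 0 ≤ ramp 0 s t := le_max_left _ _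

theorem ramp_le {s t : ℝ} (hs : 0 < s) (h0 : 0 ≤ t) (h1 : t ≤ 1) :
    ramp 0 s t ≤ t + s⁻¹ * (t - t * t) := by
  unfold ramp
  rw [sub_zero, sub_zero]
  have ht : 0 ≤ t - t * t := by nlinarith
  have hsi : 0 < s⁻¹ := inv_pos.2 hs
  refine max_le (by positivity) ?_
  rcases le_total s t with h | h
  · refine (min_le_left _ _).trans ?_
    have : s⁻¹ * (t - t * t) = (s⁻¹ * t) * (1 - t) := by ring
    have h2 : 1 ≤ s⁻¹ * t := by
      rw [inv_mul_eq_div, le_div_iff₀ hs]
      linarith
    nlinarith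
  · refine (min_le_right _ _).trans ?_
    have e : t + s⁻¹ * (t - t * t) = t / s + t * (1 - t / s) := by
      field_simp
      ring
    have : t / s ≤ 1 := by rw [div_le_one hs]; exact h
    rw [e]
    nlinarith

theorem cfc_ramp_le {P : B} (h0 : 0 ≤ P) (h1 : P ≤ 1) {s : ℝ} (hs : 0 < s) :
    cfc (ramp 0 s) P ≤ P + s⁻¹ • (P - P * P) := by
  have e : cfc (fun t : ℝ => t + s⁻¹ * (t - t * t)) P = P + s⁻¹ • (P - P * P) := by
    rw [cfc_add (a := P) (fun t : ℝ => t) (fun t : ℝ => s⁻¹ * (t - t * t)),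
      cfc_const_mul s⁻¹ (fun t : ℝ => t - t * t) P, cfc_sub (fun t : ℝ => t) (fun t : ℝ => t * t) P,
      cfc_mul (fun t : ℝ => t) (fun t : ℝ => t) P, cfc_id' ℝ P]
  rw [← e]
  refine cfc_mono (fun t ht => ?_) ramp_cont.continuousOn (by fun_prop)
  have ht0 := spectrum_nonneg_of_nonneg h0 ht
  have ht1 : t ≤ 1 := by
    have h2 : P ≤ algebraMap ℝ B 1 := by rw [map_one]; exact h1
    exact (le_algebraMap_iff_spectrum_le (a := P)).1 h2 t ht
  exact ramp_le hs ht0 ht1

end ramp

end UBd33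

universe u

open UBd33 in
theorem uBd33P (h1 : TD3BP.{u}) (h2 : RkP.{u}) (hN : N2P.{u}) (hLow : LowBP.{u})
    (hMono : QMonoP.{u}) (hLe : CuLeAddP.{u}) (hDs : QDsumP.{u}) (hCut : QCutP.{u}) :
    UBdP.{u} := by
  intro B _ _ _ hNF φ k ε hε
  set L : ℕ := 2 ^ k with hL
  have hLpos : 0 < L := by positivity
  have hLr : (L : ℝ) = 2 ^ k := by rw [hL]; push_cast; rfl
  have hL0 : (0 : ℝ) < L := by exact_mod_cast hLpos
  have hL1 : (1 : ℝ) ≤ L := by exact_mod_cast hLpos
  set s' : ℝ := (8 * L)⁻¹ with hs'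
  have hs'0 : 0 < s' := by positivity
  have hs'i : s'⁻¹ = 8 * L := by rw [hs', inv_inv]
  set K : ℝ := 18 + 8 * L * (2 * L + 4) with hK
  have hK0 : 0 < K := by positivity
  set r : ℝ := min 1 (ε / (2 * K)) with hr
  have hr0 : 0 < r := by positivity
  have hr1 : r ≤ 1 := min_le_left _ _
  have hrK : K * r < ε := by
    have : r ≤ ε / (2 * K) := min_le_right _ _
    rw [le_div_iff₀ (by positivity)] at this
    nlinarith
  obtain ⟨e, x, he0, he1, hx, hHD⟩ := h1 B hNF φ k (r ^ 2) (by positivity)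
  have hen : ‖e‖ ≤ 1 := norm_e he0 he1
  have hesa : IsSelfAdjoint e := he0.isSelfAdjoint
  obtain ⟨hD1a, hD1b, hDil⟩ := small hN φ hr0.le hHD
  have hD1sa : IsSelfAdjoint (D1 e x) := D1_sa e hesa x
  have hstar : star (D1 e x) * D1 e x = D1 e x * D1 e x := by rw [hD1sa.star_eq]
  have hsq0 : 0 ≤ D1 e x * D1 e x := by
    rw [← hstar]; exact star_mul_self_nonneg _
  set P : B := e * e with hP
  have hP0 : 0 ≤ P := by
    have := star_mul_self_nonneg e
    rwa [hesa.star_eq] at this
  have hPn : ‖P‖ ≤ 1 := by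
    calc ‖e * e‖ ≤ ‖e‖ * ‖e‖ := norm_mul_le _ _
      _ ≤ 1 * 1 := by gcongr
      _ = 1 := by norm_num
  have hP1 : P ≤ 1 := (CStarAlgebra.norm_le_one_iff_of_nonneg P hP0).1 hPn
  set c : B := (2 : ℝ) • (D1 e x * D1 e x) with hc
  have hc0 : 0 ≤ c := smul_nonneg (by norm_num) hsq0
  set h : B := cut P s' with hh
  set c' : B := cut c (1 / 8) with hc'
  have hh0 : 0 ≤ h := cut_nonneg _ _
  have hc'0 : 0 ≤ c' := cut_nonneg _ _
  obtain ⟨hy0, -⟩ : 0 ≤ dsum (one1 h) (one1 c') ∧ True :=
    ⟨dsum_nonneg (one1_nonneg hh0) (one1_nonneg hc'0), trivial⟩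
  set f : B := (1 / (L : ℝ) + ε) • (1 : B) - cfc (ramp 0 s') P - (16 : ℝ) • (D1 e x * D1 e x)
    with hf
  have hdim : ∀ σ : QTrace B, σ.dim (dsum (one1 h) (one1 c')) =
      σ.dim (one1 h) + σ.dim (one1 c') := fun σ =>
    (hDs B σ Unit Unit (one1 h) (one1 c') (one1_nonneg hh0) (one1_nonneg hc'0)).2
  have hdim0 : ∀ (σ : QTrace B) (z : B), 0 ≤ z → 0 ≤ σ.dim (one1 z) := by
    intro σ z hz
    unfold QTrace.dim
    refine Real.iSup_nonneg fun n => σ.nonneg _ _ (cfc_nonneg fun t ht => ?_)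
    have := spectrum_nonneg_of_nonneg (one1_nonneg hz) ht
    exact le_min zero_le_one (by positivity)
  refine ⟨dsum (one1 h) (one1 c'), f, hy0, ?_, ?_, ?_⟩
  · -- the lower bound
    intro σ
    rw [← hLr, hdim]
    have hA : D1 e x ≤ c + (1 / 8 : ℝ) • (1 : B) := by
      have h3 : 0 ≤ star (D1 e x - (1 / 4 : ℝ) • (1 : B)) * (D1 e x - (1 / 4 : ℝ) • (1 : B)) :=
        star_mul_self_nonneg _
      rw [star_sub, hD1sa.star_eq, star_smul, star_one, star_trivial] at h3
      have h4 : (2 : ℝ) • ((D1 e x - (1 / 4 : ℝ) • (1 : B)) * (D1 e x - (1 / 4 : ℝ) • (1 : B))) =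
          c + (1 / 8 : ℝ) • (1 : B) - D1 e x := by
        rw [hc]
        simp only [sub_mul, mul_sub, smul_mul_assoc, mul_smul_comm, mul_one, one_mul, smul_sub,
          smul_smul]
        module
      have h5 := smul_nonneg (show (0 : ℝ) ≤ 2 by norm_num) h3
      rw [h4] at h5
      exact sub_nonneg.1 h5
    have hB : c ≤ c' + (1 / 8 : ℝ) • (1 : B) := le_cut_add hc0.isSelfAdjoint _
    have hn : ‖∑ i, x i * star (x i)‖ ≤ L := by
      refine (norm_sum_le _ _).trans ?_
      have : ∀ i ∈ (Finset.univ : Finset (Fin L)), ‖x i * star (x i)‖ ≤ 1 := by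
        intro i _
        calc ‖x i * star (x i)‖ ≤ ‖x i‖ * ‖star (x i)‖ := norm_mul_le _ _
          _ ≤ 1 * 1 := by
              gcongr
              · exact hx i
              · rw [norm_star]; exact hx i
          _ = 1 := by norm_num
      refine (Finset.sum_le_sum this).trans ?_
      simp
    have hC := conj_smul_le P x s' L hP0 hs'0.le hn
    have hs'L : s' * L = 1 / 8 := by
      rw [hs']
      field_simp
    rw [hs'L] at hC
    have hle : (1 : B) ≤ ∑ i, x i * h * star (x i) + c' + (3 / 8 : ℝ) • (1 : B) := by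
      have e0 : (1 : B) = (∑ i, x i * P * star (x i)) + D1 e x := by
        unfold D1
        abel
      have e1 : (∑ i, x i * P * star (x i)) + D1 e x ≤
          (∑ i, x i * h * star (x i) + (1 / 8 : ℝ) • (1 : B)) +
            ((c' + (1 / 8 : ℝ) • (1 : B)) + (1 / 8 : ℝ) • (1 : B)) :=
        add_le_add hC (hA.trans (add_le_add hB le_rfl))
      have e2 : (∑ i, x i * h * star (x i) + (1 / 8 : ℝ) • (1 : B)) +
            ((c' + (1 / 8 : ℝ) • (1 : B)) + (1 / 8 : ℝ) • (1 : B)) =
          ∑ i, x i * h * star (x i) + c' + (3 / 8 : ℝ) • (1 : B) := by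
        module
      rw [← e2]
      refine le_trans (le_of_eq e0) e1
    obtain ⟨ε₀, hε₀, hlow⟩ := hLow B L h x c' (3 / 8) hh0 hc'0 (by norm_num) hle
    have h6 := hlow ε₀ hε₀ le_rfl σ
    have h7 : σ.dim (one1 (cut h ε₀)) ≤ σ.dim (one1 h) := by
      refine hMono B σ Unit Unit _ _ (one1_nonneg (cut_nonneg _ _)) (one1_nonneg hh0) ?_
      have h8 := hLe B Unit (one1 (cut h ε₀)) (one1 h) 0 le_rfl
        (one1_nonneg (cut_nonneg _ _)) (one1_nonneg hh0) (by
          rw [zero_smul, add_zero]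
          exact one1_mono (cut_le hh0 hε₀.le))
      rwa [cut_zero (one1_nonneg (cut_nonneg _ _))] at h8
    have h9 := hdim0 σ c' hc'0
    rw [div_le_iff₀ hL0]
    nlinarith
  · -- `φ f > 0`
    have hone : (φ.φ (1 : B)).re = 1 := by rw [φ.one, Complex.one_re]
    rw [hf, map_sub, map_sub, Complex.sub_re, Complex.sub_re, ts_smul, ts_smul, hone]
    have a1 : (φ.φ (cfc (ramp 0 s') P)).re ≤ (φ.φ P).re + 8 * L * (φ.φ (P - P * P)).re := by
      have := (hN B φ).2.2.2 _ _ (cfc_ramp_le hP0 hP1 hs'0)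
      rwa [map_add, Complex.add_re, ts_smul, hs'i] at this
    have a2 : (φ.φ (P - P * P)).re ≤ (2 * L + 4) * r :=
      proj hN φ hen hx hD1b hDil ⟨0, hLpos⟩
    have a3 : (L : ℝ) * (φ.φ P).re ≤ 1 + (L + 1) * r := tr_e hN φ hD1b hDil
    have a4 : (φ.φ (D1 e x * D1 e x)).re ≤ r ^ 2 := by
      rw [← hstar]; exact hD1a
    have a5 : (φ.φ P).re ≤ 1 / L + 2 * r := by
      have : (φ.φ P).re ≤ (1 + (L + 1) * r) / L := by
        rw [le_div_iff₀ hL0]
        linarith
      refine this.trans ?_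
      rw [div_le_iff₀ hL0]
      have : (1 / (L : ℝ) + 2 * r) * L = 1 + 2 * r * L := by field_simp
      rw [this]
      nlinarith
    have a6 : 8 * L * (φ.φ (P - P * P)).re ≤ 8 * L * ((2 * L + 4) * r) := by gcongr
    have a7 : r ^ 2 ≤ r := by nlinarith
    have a8 : K * r = 18 * r + 8 * L * ((2 * L + 4) * r) := by rw [hK]; ring
    linarith
  · -- the upper bound
    intro ψ σ hσ hpos
    rw [← hLr, hdim]
    have hone : (ψ.φ (1 : B)).re = 1 := by rw [ψ.one, Complex.one_re]
    rw [hf, map_sub, map_sub, Complex.sub_re, Complex.sub_re, ts_smul, ts_smul, hone] at hpos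
    have b1 : σ.dim (one1 h) ≤ (ψ.φ (cfc (ramp 0 s') P)).re := by
      refine (h2 B ψ σ hσ P hP0 (ramp 0 s') (fun t => max (t - s') 0) ramp_cont (by fun_prop)
        (fun t => ramp_nonneg _ _) (fun t => le_max_right _ _)).2 ?_
      intro t ht
      have ht' : s' < t := by
        by_contra hcon
        push_neg at hcon
        exact ht (max_eq_right (by linarith))
      unfold ramp
      rw [sub_zero, sub_zero]
      refine le_max_of_le_right (le_min le_rfl ?_)
      rw [le_div_iff₀ hs'0]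
      linarith
    have b2 : σ.dim (one1 c') ≤ 16 * (ψ.φ (D1 e x * D1 e x)).re := by
      have b3 := hCut B σ Unit (one1 c) (1 / 8) (one1_nonneg hc0) (by norm_num)
      rw [cut_one1 hc0.isSelfAdjoint] at b3
      have b4 : σ.τ Unit (one1 c) = 2 * (ψ.φ (D1 e x * D1 e x)).re := by
        rw [hσ Unit (one1 c)]
        have : ∀ i : Unit, (ψ.φ ((one1 c) i i)).re = 2 * (ψ.φ (D1 e x * D1 e x)).re := by
          intro i
          show (ψ.φ c).re = _
          rw [hc, ts_smul]
        rw [Finset.sum_congr rfl fun i _ => this i]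
        simp
      rw [b4] at b3
      linarith
    linarith

end RC
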